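import Pool.Agent.E8helper19.LC.Stm

/-!
# Asymptotics in the leads
-/

set_option autoImplicit false

open MeasureTheory Filter Topology Set
open scoped Real

namespace Pool.Agent.E8helper47.LC

open Pool.Agent.E8helper19.LC

noncomputable section

theorem norm_rot (e : P) : ‖rot e‖ = ‖e‖ := by
  rw [EuclideanSpace.norm_eq, EuclideanSpace.norm_eq, Fin.sum_univ_two, Fin.sum_univ_two]
  congr 1
  simp [rot]
  ring

theorem norm_comb (e : P) (he : ‖e‖ = 1) (u r : ℝ) : ‖u • rot e - r • e‖ = √(u ^ 2 + r ^ 2) := by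
  have h1 : e 0 ^ 2 + e 1 ^ 2 = 1 := by
    have h2 := EuclideanSpace.norm_eq e
    rw [he, Fin.sum_univ_two] at h2
    have h3 : (0 : ℝ) ≤ ‖e 0‖ ^ 2 + ‖e 1‖ ^ 2 := by positivity
    have h4 := Real.sq_sqrt h3
    rw [← h2] at h4
    simp only [Real.norm_eq_abs, sq_abs] at h4
    linarith
  rw [EuclideanSpace.norm_eq, Fin.sum_univ_two]
  congr 1
  simp only [rot, PiLp.sub_apply, PiLp.smul_apply, smul_eq_mul, Real.norm_eq_abs, sq_abs]
  simp
  linear_combination (u ^ 2 + r ^ 2) * h1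

theorem Gk_meas (μ : ℝ) : Measurable (Gk μ) := by
  have h : StronglyMeasurable fun z : ℝ × ℝ =>
      (4 * π * z.2)⁻¹ * Real.exp (-(z.1 ^ 2 / (4 * z.2) + μ ^ 2 * z.2)) := by
    apply Measurable.stronglyMeasurable
    fun_prop
  exact (h.integral_prod_right (ν := volume.restrict (Ioi (0 : ℝ)))).measurable

theorem Gk_nonneg (μ ρ : ℝ) : 0 ≤ Gk μ ρ := by
  unfold Gk
  refine setIntegral_nonneg measurableSet_Ioi fun t ht => ?_
  have ht' : (0 : ℝ) < t := ht
  positivity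

theorem Gk_le (hG : S_G) {μ x y : ℝ} (hμ : 0 < μ) (hx : 0 < x) (hxy : x ≤ y) : Gk μ y ≤ Gk μ x := by
  rw [(hG.1 μ y hμ (hx.trans_le hxy)).2, (hG.1 μ x hμ hx).2]
  exact hG.2.2.1 _ _ (by positivity) (by gcongr)

theorem int_Gk (hG : S_G) {μ c : ℝ} (hμ : 0 < μ) (hc : 0 < c) : Integrable (fun r : ℝ => Gk μ (c * |r|)) := by
  refine (hG.2.2.2.2.1 (μ * c) (by positivity)).congr ?_
  have h0 : ∀ᵐ r : ℝ, r ≠ 0 := by
    rw [ae_iff]
    simp
  filter_upwards [h0] with r hr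
  have hr' : 0 < |r| := abs_pos.2 hr
  rw [(hG.1 (μ * c) |r| (by positivity) hr').2, (hG.1 μ (c * |r|) hμ (by positivity)).2]
  congr 1
  ring

theorem norm_pw (k s : ℝ) : ‖pw k s‖ = 1 := by
  unfold pw
  have h : Complex.I * (k : ℂ) * (s : ℂ) = ((k * s : ℝ) : ℂ) * Complex.I := by push_cast; ring
  rw [h, Complex.norm_exp_ofReal_mul_I]

theorem pw_add (k s r : ℝ) : pw k (s + r) = pw k s * pw k r := by
  unfold pw
  rw [← Complex.exp_add]
  congr 1
  push_cast
  ring

theorem pw_cont (k : ℝ) : Continuous (pw k) := by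
  unfold pw
  fun_prop

theorem mu_pos {α k : ℝ} (hk : 0 < k) (hα : 2 * k < α) : 0 < mu α k := by
  unfold mu
  apply Real.sqrt_pos.2
  nlinarith

theorem mu_sq {α k p : ℝ} (hk : 0 < k) (hα : 2 * k < α) (hp : p ^ 2 = k ^ 2) :
    √(p ^ 2 + mu α k ^ 2) = α / 2 := by
  unfold mu
  rw [Real.sq_sqrt (by nlinarith), hp]
  have h : k ^ 2 + (α ^ 2 / 4 - k ^ 2) = (α / 2) ^ 2 := by ring
  rw [h, Real.sqrt_sq (by linarith)]

theorem ft_val (hFT : S_FT) {α k p : ℝ} (hk : 0 < k) (hα : 2 * k < α) (hp : p ^ 2 = k ^ 2) (u : ℝ) :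
    ∫ r : ℝ, ((Gk (mu α k) (√(u ^ 2 + r ^ 2)) : ℝ) : ℂ) * pw p r =
      ((Real.exp (-(α * |u| / 2)) / α : ℝ) : ℂ) := by
  by_cases hu : u = 0
  · subst hu
    have h1 := hFT.1 (mu α k) p (mu_pos hk hα)
    rw [mu_sq hk hα hp] at h1
    have h2 : ∀ r : ℝ, √((0 : ℝ) ^ 2 + r ^ 2) = |r| := by
      intro r
      rw [← Real.sqrt_sq_eq_abs]
      congr 1
      ring
    simp_rw [h2]
    rw [h1]
    congr 1
    rw [abs_zero, mul_zero, zero_div, neg_zero, Real.exp_zero]
    congr 1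
    ring
  · rw [hFT.2 (mu α k) p u (mu_pos hk hα) hu, mu_sq hk hα hp]
    congr 1
    congr 1
    · congr 1
      ring
    · ring

/-- the asymptotics along one end of the curve -/
theorem asy_gen (hG : S_G) (hFT : S_FT) {γ : ℝ → P} {k α : ℝ} {f : ℝ → ℂ} {a b : ℂ} {F : Filter ℝ}
    [F.IsCountablyGenerated] (hγ : Continuous γ) (hγ1 : ∀ s, ‖deriv γ s‖ = 1) {c : ℝ} (hc : 0 < c) (hc1 : c ≤ 1)
    (hch : ∀ s t, c * |s - t| ≤ ‖γ s - γ t‖)
    (hF1 : ∀ u R : ℝ, ∀ᶠ s in F, ∀ r, |r| ≤ R →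
      ‖γ s + u • rot (deriv γ s) - γ (s + r)‖ = √(u ^ 2 + r ^ 2))
    (hF2 : ∀ r : ℝ, Tendsto (fun s => s + r) F F) (hk : 0 < k) (hα : 2 * k < α) (hf : BC f)
    (h1 : Asy1 k f F a b) :
    Asy α k γ (fun x => ∫ s, ((α * Gk (mu α k) ‖x - γ s‖ : ℝ) : ℂ) * f s) F a b := by
  intro u
  obtain ⟨M, hM⟩ := hf.bdd
  have hM0 : 0 ≤ M := (norm_nonneg _).trans (hM 0)
  have hα0 : 0 < α := by linarith
  have hμ := mu_pos hk hα
  set μ := mu α k with hμd
  let A : ℝ → ℝ → ℂ := fun s r =>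
    ((α * Gk μ ‖γ s + u • rot (deriv γ s) - γ (s + r)‖ : ℝ) : ℂ) * f (s + r)
  let B : ℝ → ℝ → ℂ := fun s r =>
    ((α * Gk μ (√(u ^ 2 + r ^ 2)) : ℝ) : ℂ) * (a * pw k (s + r) + b * pw (-k) (s + r))
  have hr0 : ∀ᵐ r : ℝ, r ≠ 0 := by
    rw [ae_iff]
    simp
  have hG1 : ∀ r : ℝ, r ≠ 0 → Gk μ (√(u ^ 2 + r ^ 2)) ≤ Gk μ (c / 2 * |r|) := by
    intro r hr
    have hr' : 0 < |r| := abs_pos.2 hr
    refine Gk_le hG hμ (by positivity) ?_
    have h2 : |r| ≤ √(u ^ 2 + r ^ 2) := by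
      rw [← Real.sqrt_sq_eq_abs]
      exact Real.sqrt_le_sqrt (by nlinarith [sq_nonneg u])
    nlinarith
  have hint := int_Gk hG hμ (half_pos hc)
  have hmG : Measurable fun r : ℝ => Gk μ (√(u ^ 2 + r ^ 2)) :=
    (Gk_meas μ).comp (by fun_prop)
  have hB0 : ∀ p : ℝ, Integrable (fun r : ℝ => ((Gk μ (√(u ^ 2 + r ^ 2)) : ℝ) : ℂ) * pw p r) := by
    intro p
    refine hint.mono' ?_ ?_
    · exact ((Complex.measurable_ofReal.comp hmG).mul (pw_cont p).measurable).aestronglyMeasurable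
    · filter_upwards [hr0] with r hr
      rw [norm_mul, norm_pw, mul_one, Complex.norm_real, Real.norm_eq_abs, abs_of_nonneg (Gk_nonneg _ _)]
      exact hG1 r hr
  have hBe : ∀ s r : ℝ, B s r = (α * a * pw k s) * (((Gk μ (√(u ^ 2 + r ^ 2)) : ℝ) : ℂ) * pw k r) +
      (α * b * pw (-k) s) * (((Gk μ (√(u ^ 2 + r ^ 2)) : ℝ) : ℂ) * pw (-k) r) := by
    intro s r
    simp only [B]
    rw [pw_add, pw_add]
    push_cast
    ring
  have hBi : ∀ s, Integrable (B s) := by
    intro s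
    have h2 : B s = fun r => (α * a * pw k s) * (((Gk μ (√(u ^ 2 + r ^ 2)) : ℝ) : ℂ) * pw k r) +
        (α * b * pw (-k) s) * (((Gk μ (√(u ^ 2 + r ^ 2)) : ℝ) : ℂ) * pw (-k) r) := funext (hBe s)
    rw [h2]
    exact ((hB0 k).const_mul _).add ((hB0 (-k)).const_mul _)
  have hBv : ∀ s, ∫ r, B s r = (a * pw k s + b * pw (-k) s) * (Real.exp (-(α * |u| / 2)) : ℂ) := by
    intro s
    have hα' : (α : ℂ) ≠ 0 := by exact_mod_cast hα0.ne'
    simp_rw [hBe]
    rw [integral_add ((hB0 k).const_mul _) ((hB0 (-k)).const_mul _), integral_const_mul, integral_const_mul,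
      ft_val hFT hk hα rfl u, ft_val hFT hk hα (by ring) u]
    push_cast
    field_simp
  have hA : ∀ s, (∫ t, ((α * Gk μ ‖γ s + u • rot (deriv γ s) - γ t‖ : ℝ) : ℂ) * f t) = ∫ r, A s r := by
    intro s
    exact (integral_add_left_eq_self
      (fun t => ((α * Gk μ ‖γ s + u • rot (deriv γ s) - γ t‖ : ℝ) : ℂ) * f t) s).symm
  have hAm : ∀ s, AEStronglyMeasurable (A s) volume := by
    intro s
    have h2 : Measurable fun r : ℝ => Gk μ ‖γ s + u • rot (deriv γ s) - γ (s + r)‖ :=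
      (Gk_meas μ).comp (by fun_prop)
    have h3 : Measurable fun r : ℝ => f (s + r) := hf.cont.measurable.comp (by fun_prop)
    exact ((Complex.measurable_ofReal.comp (h2.const_mul α)).mul h3).aestronglyMeasurable
  -- the main estimate
  have hdist : ∀ᶠ s in F, ∀ r : ℝ, c / 2 * |r| ≤ ‖γ s + u • rot (deriv γ s) - γ (s + r)‖ := by
    filter_upwards [hF1 u (2 * |u| / c)] with s hs r
    by_cases hr : |r| ≤ 2 * |u| / c
    · rw [hs r hr]
      have h2 : |r| ≤ √(u ^ 2 + r ^ 2) := by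
        rw [← Real.sqrt_sq_eq_abs]
        exact Real.sqrt_le_sqrt (by nlinarith [sq_nonneg u])
      nlinarith [abs_nonneg r]
    · push Not at hr
      rw [div_lt_iff₀ hc] at hr
      have h2 := hch s (s + r)
      have h3 : |s - (s + r)| = |r| := by
        rw [← abs_neg r]
        congr 1
        ring
      rw [h3] at h2
      have h4 : ‖γ s - γ (s + r)‖ ≤ ‖γ s + u • rot (deriv γ s) - γ (s + r)‖ + ‖u • rot (deriv γ s)‖ := by
        have h5 : γ s - γ (s + r) = (γ s + u • rot (deriv γ s) - γ (s + r)) - u • rot (deriv γ s) := by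
          abel
        rw [h5]
        exact norm_sub_le _ _
      rw [norm_smul, norm_rot, hγ1, mul_one, Real.norm_eq_abs] at h4
      nlinarith
  have hAb : ∀ᶠ s in F, ∀ r : ℝ, r ≠ 0 → ‖A s r‖ ≤ α * M * Gk μ (c / 2 * |r|) := by
    filter_upwards [hdist] with s hs r hr
    have hr' : 0 < |r| := abs_pos.2 hr
    have h2 := Gk_le hG hμ (by positivity : 0 < c / 2 * |r|) (hs r)
    simp only [A]
    rw [norm_mul, Complex.norm_real, Real.norm_eq_abs, abs_mul, abs_of_pos hα0, abs_of_nonneg (Gk_nonneg _ _)]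
    have h3 := hM (s + r)
    have h4 := Gk_nonneg μ ‖γ s + u • rot (deriv γ s) - γ (s + r)‖
    have h5 := Gk_nonneg μ (c / 2 * |r|)
    calc α * Gk μ ‖γ s + u • rot (deriv γ s) - γ (s + r)‖ * ‖f (s + r)‖
        ≤ α * Gk μ (c / 2 * |r|) * M := by gcongr
      _ = α * M * Gk μ (c / 2 * |r|) := by ring
  have hBb : ∀ s r : ℝ, r ≠ 0 → ‖B s r‖ ≤ α * (‖a‖ + ‖b‖) * Gk μ (c / 2 * |r|) := by
    intro s r hr
    simp only [B]
    rw [norm_mul, Complex.norm_real, Real.norm_eq_abs, abs_mul, abs_of_pos hα0, abs_of_nonneg (Gk_nonneg _ _)]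
    have h3 : ‖a * pw k (s + r) + b * pw (-k) (s + r)‖ ≤ ‖a‖ + ‖b‖ := by
      refine (norm_add_le _ _).trans ?_
      rw [norm_mul, norm_mul, norm_pw, norm_pw, mul_one, mul_one]
    have h4 := Gk_nonneg μ (√(u ^ 2 + r ^ 2))
    have h5 := hG1 r hr
    have h6 := Gk_nonneg μ (c / 2 * |r|)
    calc α * Gk μ (√(u ^ 2 + r ^ 2)) * ‖a * pw k (s + r) + b * pw (-k) (s + r)‖
        ≤ α * Gk μ (c / 2 * |r|) * (‖a‖ + ‖b‖) := by gcongr
      _ = α * (‖a‖ + ‖b‖) * Gk μ (c / 2 * |r|) := by ring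
  have hAi : ∀ᶠ s in F, Integrable (A s) := by
    filter_upwards [hAb] with s hs
    refine (hint.const_mul (α * M)).mono' (hAm s) ?_
    filter_upwards [hr0] with r hr
    exact hs r hr
  have hlim : Tendsto (fun s => ∫ r, (A s r - B s r)) F (𝓝 (∫ _ : ℝ, (0 : ℂ))) := by
    refine tendsto_integral_filter_of_dominated_convergence
      (fun r => α * M * Gk μ (c / 2 * |r|) + α * (‖a‖ + ‖b‖) * Gk μ (c / 2 * |r|)) ?_ ?_ ?_ ?_
    · exact Eventually.of_forall fun s => (hAm s).sub (hBi s).aestronglyMeasurable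
    · filter_upwards [hAb] with s hs
      filter_upwards [hr0] with r hr
      exact (norm_sub_le _ _).trans (add_le_add (hs r hr) (hBb s r hr))
    · exact (hint.const_mul _).add (hint.const_mul _)
    · refine Eventually.of_forall fun r => ?_
      have h2 : Tendsto (fun s => ((α * Gk μ (√(u ^ 2 + r ^ 2)) : ℝ) : ℂ) *
          (f (s + r) - (a * pw k (s + r) + b * pw (-k) (s + r)))) F (𝓝 0) := by
        have h3 := (h1.comp (hF2 r)).const_mul ((α * Gk μ (√(u ^ 2 + r ^ 2)) : ℝ) : ℂ)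
        rw [mul_zero] at h3
        exact h3
      refine h2.congr' ?_
      filter_upwards [hF1 u |r|] with s hs
      simp only [A, B]
      rw [hs r le_rfl]
      ring
  rw [integral_zero] at hlim
  refine hlim.congr' ?_
  filter_upwards [hAi] with s hs
  rw [integral_sub hs (hBi s), hBv s]
  simp only [hA s]

theorem t_ASY2 (h : S_CHORD) (h2 : S_G) (h3 : S_FT) : S_ASY2 := by
  intro γ L k α f a b hc hd hk hα hf
  obtain ⟨c, hc0, hc1, hch⟩ := h γ L hc hd
  have hcont : Continuous γ := hc.smooth.continuous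
  refine ⟨fun h1 => ?_, fun h1 => ?_⟩
  · refine asy_gen h2 h3 hcont hc.unit hc0 hc1 hch ?_ ?_ hk hα hf h1
    · intro u R
      filter_upwards [eventually_lt_atBot (-L - |R|), eventually_lt_atBot (-L)] with s hs hs' r hr
      have hsr : s + r ≤ -L := by
        have := (le_abs_self r).trans (hr.trans (le_abs_self R))
        linarith
      have hds : deriv γ s = deriv γ (-L) := by
        have h4 : γ =ᶠ[𝓝 s] fun s => γ (-L) + (s + L) • deriv γ (-L) := by
          filter_upwards [eventually_lt_nhds hs'] with t ht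
          exact hc.left t ht.le
        rw [h4.deriv_eq]
        have h5 : HasDerivAt (fun s : ℝ => γ (-L) + (s + L) • deriv γ (-L)) ((1 : ℝ) • deriv γ (-L)) s :=
          (((hasDerivAt_id s).add_const L).smul_const (deriv γ (-L))).const_add (γ (-L))
        rw [h5.deriv, one_smul]
      rw [hds, hc.left s hs'.le, hc.left (s + r) hsr, ← norm_comb (deriv γ (-L)) (hc.unit _) u r]
      congr 1
      module
    · intro r
      exact tendsto_atBot_add_const_right _ _ tendsto_id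
  · refine asy_gen h2 h3 hcont hc.unit hc0 hc1 hch ?_ ?_ hk hα hf h1
    · intro u R
      filter_upwards [eventually_gt_atTop (L + |R|), eventually_gt_atTop L] with s hs hs' r hr
      have hsr : L ≤ s + r := by
        have := (neg_abs_le r)
        have := (hr.trans (le_abs_self R))
        linarith
      have hds : deriv γ s = deriv γ L := by
        have h4 : γ =ᶠ[𝓝 s] fun s => γ L + (s - L) • deriv γ L := by
          filter_upwards [eventually_gt_nhds hs'] with t ht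
          exact hc.right t (le_of_lt ht)
        rw [h4.deriv_eq]
        have h5 : HasDerivAt (fun s : ℝ => γ L + (s - L) • deriv γ L) ((1 : ℝ) • deriv γ L) s :=
          (((hasDerivAt_id s).sub_const L).smul_const (deriv γ L)).const_add (γ L)
        rw [h5.deriv, one_smul]
      rw [hds, hc.right s hs'.le, hc.right (s + r) hsr, ← norm_comb (deriv γ L) (hc.unit _) u r]
      congr 1
      module
    · intro r
      exact tendsto_atTop_add_const_right _ _ tendsto_id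

end

end Pool.Agent.E8helper47.LC
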